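import Pool.Agent.Helper97.Ku.GoalsC

namespace Pool.Agent.Helper97.Ku.PkEC

open Set Pool.Agent.Helper97.Ku

/-- membership in a join -/
theorem mem_iSup_of {ι : Sort*} {a : ι → BA} {p : Cond} (i : ι) (h : p ∈ a i) :
    p ∈ ⨆ i, a i := (le_iSup a i) p h

/-- the node of a smaller condition on a row -/
theorem node {w w' : Cond} (h : w' ≤ w) {ξ : Kap} {s : Set Om}
    (hv : w.v (.row ξ) = some (.nd s)) :
    ∃ s', w'.v (.row ξ) = some (.nd s') ∧ s' ∩ Iio w.g = s ∧ s' ∈ w'.S := by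
  obtain ⟨y, hy, hy'⟩ := h.2.2 _ _ hv
  cases y with
  | nd s' =>
    refine ⟨s', hy, ?_, w'.v_ok _ _ hy⟩
    simpa [Val.res] using hy'
  | od η => simp [Val.res] at hy'

theorem star_g (w : Cond) (D : Set Coord) (ξ0 : Kap) (s : Set Om) (hs : s ∈ w.S) :
    (star w D ξ0 s hs).g = w.g := rfl

theorem star_v_self (w : Cond) (D : Set Coord) (ξ0 : Kap) (s : Set Om) (hs : s ∈ w.S) :
    (star w D ξ0 s hs).v (.row ξ0) = some (.nd s) := upd_v_self _ _ _ _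

theorem star_v_ne (w : Cond) (D : Set Coord) (ξ0 : Kap) (s : Set Om) (hs : s ∈ w.S)
    {c : Coord} (hc : c ≠ .row ξ0) : (star w D ξ0 s hs).v c = (w.rs D).v c :=
  upd_v_ne _ _ _ hc

theorem star_supp (w : Cond) (D : Set Coord) (ξ0 : Kap) (s : Set Om) (hs : s ∈ w.S) :
    (star w D ξ0 s hs).supp ⊆ insert (Coord.row ξ0) D := by
  intro c hc
  by_cases h : c = .row ξ0
  · exact Or.inl h
  · refine Or.inr ?_
    by_contra h1
    apply hc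
    rw [star_v_ne w D ξ0 s hs h, Cond.rs_v_not _ h1]

theorem star_rs (w : Cond) (D : Set Coord) (ξ0 : Kap) (s : Set Om) (hs : s ∈ w.S)
    (hD : Coord.row ξ0 ∉ D) : (star w D ξ0 s hs).rs D = w.rs D := by
  refine Cond.ext rfl rfl ?_
  funext c
  by_cases hc : c ∈ D
  · have h : c ≠ .row ξ0 := by
      rintro rfl
      exact hD hc
    rw [Cond.rs_v_mem _ hc, star_v_ne w D ξ0 s hs h]
  · rw [Cond.rs_v_not _ hc, Cond.rs_v_not _ hc]

theorem star_mono {w w' : Cond} (h : w' ≤ w) (D : Set Coord) (ξ0 : Kap) {s s' : Set Om}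
    (hs : s ∈ w.S) (hs' : s' ∈ w'.S) (e : s' ∩ Iio w.g = s) :
    star w' D ξ0 s' hs' ≤ star w D ξ0 s hs := by
  refine ⟨h.1, h.2.1, fun c x hx => ?_⟩
  by_cases hc : c = .row ξ0
  · subst hc
    rw [star_v_self] at hx
    refine ⟨.nd s', star_v_self _ _ _ _ _, ?_⟩
    rw [← Option.some.inj hx]
    simp only [Val.res, Val.nd.injEq]
    exact e
  · rw [star_v_ne w D ξ0 s hs hc] at hx
    rw [star_v_ne w' D ξ0 s' hs' hc]
    exact (Cond.rs_mono h D).2.2 c x hx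

theorem rs_le_star {y w : Cond} {D : Set Coord} {ξ0 : Kap} {s : Set Om} {hs : s ∈ w.S}
    (h : y ≤ star w D ξ0 s hs) : y.rs (insert (Coord.row ξ0) D) ≤ star w D ξ0 s hs := by
  have h1 := Cond.rs_mono h (insert (Coord.row ξ0) D)
  rwa [Cond.rs_eq_self (star_supp w D ξ0 s hs)] at h1

/-- a condition obtained by lifting has the given star -/
theorem star_eq {w1 y : Cond} {D : Set Coord} {ξ0 ξ : Kap}
    (h1 : w1.rs D = y.rs D) (h2 : w1.v (.row ξ) = y.v (.row ξ0))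
    (h3 : y.supp ⊆ insert (Coord.row ξ0) D) {t : Set Om} (ht : y.v (.row ξ0) = some (.nd t))
    (hD : Coord.row ξ0 ∉ D) :
    ∃ hs : t ∈ w1.S, w1.v (.row ξ) = some (.nd t) ∧ star w1 D ξ0 t hs = y := by
  have hv : w1.v (.row ξ) = some (.nd t) := h2.trans ht
  have hs : t ∈ w1.S := w1.v_ok _ _ hv
  have hg : w1.g = y.g := (congrArg Cond.g h1 : (w1.rs D).g = (y.rs D).g)
  have hS : w1.S = y.S := (congrArg Cond.S h1 : (w1.rs D).S = (y.rs D).S)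
  refine ⟨hs, hv, Cond.ext hg hS ?_⟩
  funext c
  by_cases hc : c = .row ξ0
  · subst hc
    rw [star_v_self, ht]
  · rw [star_v_ne w1 D ξ0 t hs hc, h1]
    by_cases hc' : c ∈ D
    · rw [Cond.rs_v_mem _ hc']
    · rw [Cond.rs_v_not _ hc']
      by_contra h4
      rcases h3 (fun h5 => h4 h5.symm) with h6 | h6
      · exact hc h6
      · exact hc' h6

theorem ecc : G_EKEY → G_LFT → G_RD → G_DN → G_ECC := by
  intro hE hL hR hN G x ht b D ξ0 s0 q hx hht hT hB hG w ξ s hs hne hnD hv hst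
  have hEK := hE G b D ξ0 s0 q hG
  constructor
  · show w ∈ ⨅ α, ⨆ n, (EAV G (rowN ξ) (EN G q D ξ0 b) n ⊓ ht.v n α)
    rw [RO.mem_iInf]
    intro α
    rw [RO.mem_iSup]
    intro w' hw'
    obtain ⟨s', hv', e', hs'⟩ := node hw' hv
    have hstw : star w' D ξ0 s' hs' ≤ q := (star_mono hw' D ξ0 hs hs' e').trans hst
    have h1 : star w' D ξ0 s' hs' ∈ ⨆ n, (b n ⊓ ht.v n α) := RO.lower hstw (hB.co α)
    obtain ⟨y, hy, n, hyn⟩ := RO.mem_iSup.mp h1 _ le_rfl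
    have hyb : y.rs (insert (Coord.row ξ0) D) ∈ b n :=
      (hR Om b (insert (Coord.row ξ0) D) q hG.cap hG.sp n y (hy.trans hstw)).1 hyn.1
    have hyh : y.rs D ∈ ht.v n α := hht n α y hyn.2
    set y' := y.rs (insert (Coord.row ξ0) D) with hy'def
    have hy'le : y' ≤ star w' D ξ0 s' hs' := rs_le_star hy
    have hy's : y'.supp ⊆ insert (Coord.row ξ0) D := Cond.supp_rs_subset _ _
    have hy'D : y'.rs D = y.rs D := Cond.rs_rs_of_subset y (subset_insert _ _)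
    obtain ⟨w1, hw1, hw1D, hw1v, _⟩ := hL D ξ0 ξ ξ w' s' s' hs' hs' hG.nD hne hne hnD hnD hv' hv'
      y' y' hy'le hy'le rfl hy's hy's (fun _ => rfl)
    obtain ⟨t, ht', _, _⟩ := node hy'le (star_v_self w' D ξ0 s' hs')
    obtain ⟨hst1, hv1, hse⟩ := star_eq hw1D hw1v hy's ht' hG.nD
    refine ⟨w1, hw1, n, ?_, ?_⟩
    · rw [hEK w1 ξ t hst1 hne hnD hv1 (by rw [hse]; exact hy'le.trans hstw), hse]
      exact hyb
    · refine RO.lower (Cond.le_rs w1 D) ?_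
      rw [hw1D, hy'D]
      exact hyh
  · show w ∈ ⨅ n, ⨅ m, ((EAV G (rowN ξ) (EN G q D ξ0 b) n ⊓ EAV G (rowN ξ) (EN G q D ξ0 b) m) ⇨
      (Rv G x n m ⊔ (bo (n = m) ⊔ Rv G x m n)))
    rw [RO.mem_iInf]
    intro n
    rw [RO.mem_iInf]
    intro m
    rw [RO.mem_himp]
    intro w' hw' hw'e
    obtain ⟨s', hv', e', hs'⟩ := node hw' hv
    have hstw : star w' D ξ0 s' hs' ≤ q := (star_mono hw' D ξ0 hs hs' e').trans hst
    have h1 : star w' D ξ0 s' hs' ∈ b n := (hEK w' ξ s' hs' hne hnD hv' hstw n).mp hw'e.1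
    have h2 : star w' D ξ0 s' hs' ∈ b m := (hEK w' ξ s' hs' hne hnD hv' hstw m).mp hw'e.2
    have h3 : star w' D ξ0 s' hs' ∈ (Rv G x n m ⊔ (bo (n = m) ⊔ Rv G x m n)) :=
      RO.mem_himp.mp (hB.ch n m) _ hstw ⟨h1, h2⟩
    have hDc : Dn D (Rv G x n m ⊔ (bo (n = m) ⊔ Rv G x m n)) :=
      hN.2.2.1 _ _ _ (hx _ _) (hN.2.2.1 _ _ _ (hN.2.2.2.2.2.2.1 _ _) (hx _ _))
    have h4 := hDc _ h3
    rw [star_rs w' D ξ0 s' hs' hG.nD] at h4
    exact RO.lower (Cond.le_rs w' D) h4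

theorem einc : G_EKEY → G_LFT → G_RD → G_DN → G_SP2 → G_ECC → G_EINC := by
  intro hE hL hR hN hSP hC G x ht b D ξ0 s0 q hx hht hT hB hG w ξ ξ' s s' hs hs' hne hne'
    hdd hnD hnD' hv hv' hst hst'
  have hEK := hE G b D ξ0 s0 q hG
  have hECC := hC G x ht b D ξ0 s0 q hx hht hT hB hG
  show w ∈ ⨆ n, ⨆ m, ⨆ α, ((EAV G (rowN ξ) (EN G q D ξ0 b) n ⊓
    EAV G (rowN ξ') (EN G q D ξ0 b) m) ⊓ ((ht.v n α ⊓ ht.v m α) ⊓ bo (n ≠ m)))
  refine RO.dense fun w' hw' => ?_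
  obtain ⟨s1, hv1, e1, hs1⟩ := node hw' hv
  obtain ⟨s1', hv1', e1', hs1'⟩ := node hw' hv'
  have hu : star w' D ξ0 s1 hs1 ≤ q := (star_mono hw' D ξ0 hs hs1 e1).trans hst
  have hu' : star w' D ξ0 s1' hs1' ≤ q := (star_mono hw' D ξ0 hs' hs1' e1').trans hst'
  obtain ⟨n, u, v, hlu, hlv, huv, hopp⟩ := hSP Om b D q hG.nc (star w' D ξ0 s1 hs1)
    (star w' D ξ0 s1' hs1') hu hu' (by rw [star_rs _ _ _ _ _ hG.nD, star_rs _ _ _ _ _ hG.nD])
  have hU : u.rs (insert (Coord.row ξ0) D) ≤ star w' D ξ0 s1 hs1 := rs_le_star hlu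
  have hV : v.rs (insert (Coord.row ξ0) D) ≤ star w' D ξ0 s1' hs1' := rs_le_star hlv
  have hRu := hR Om b (insert (Coord.row ξ0) D) q hG.cap hG.sp n u (hlu.trans hu)
  have hRv := hR Om b (insert (Coord.row ξ0) D) q hG.cap hG.sp n v (hlv.trans hu')
  set U := u.rs (insert (Coord.row ξ0) D) with hUdef
  set V := v.rs (insert (Coord.row ξ0) D) with hVdef
  have hUs : U.supp ⊆ insert (Coord.row ξ0) D := Cond.supp_rs_subset _ _
  have hVs : V.supp ⊆ insert (Coord.row ξ0) D := Cond.supp_rs_subset _ _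
  have hUVD : U.rs D = V.rs D := by
    rw [hUdef, hVdef, Cond.rs_rs_of_subset u (subset_insert _ _),
      Cond.rs_rs_of_subset v (subset_insert _ _)]
    exact huv
  obtain ⟨w1, hw1, hw1D, hw1v, hw1v'⟩ := hL D ξ0 ξ ξ' w' s1 s1' hs1 hs1' hG.nD hne hne' hnD hnD'
    hv1 hv1' U V hU hV hUVD hUs hVs (fun h => absurd h hdd)
  obtain ⟨t, ht1, _, _⟩ := node hU (star_v_self w' D ξ0 s1 hs1)
  obtain ⟨t', ht1', _, _⟩ := node hV (star_v_self w' D ξ0 s1' hs1')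
  obtain ⟨hst1, hv2, hse⟩ := star_eq hw1D hw1v hUs ht1 hG.nD
  obtain ⟨hst1', hv2', hse'⟩ := star_eq (hw1D.trans hUVD) hw1v' hVs ht1' hG.nD
  have hUq : U ≤ q := hU.trans hu
  have hVq : V ≤ q := hV.trans hu'
  -- for extensions
  have key : ∀ (ζ : Kap) (r : Set Om) (hr : r ∈ w1.S), ζ ≠ ξ0 → Coord.row ζ ∉ D →
      w1.v (.row ζ) = some (.nd r) → star w1 D ξ0 r hr ≤ q → star w1 D ξ0 r hr ∈ (b n)ᶜ →
      ∀ w2, w2 ≤ w1 → w2 ∉ EAV G (rowN ζ) (EN G q D ξ0 b) n := by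
    intro ζ r hr hζ hζD hζv hζq hζb w2 hw2 hcon
    obtain ⟨r2, hr2v, hr2e, hr2⟩ := node hw2 hζv
    have h1 : star w2 D ξ0 r2 hr2 ≤ star w1 D ξ0 r hr := star_mono hw2 D ξ0 hr hr2 hr2e
    have h2 := (hEK w2 ζ r2 hr2 hζ hζD hr2v (h1.trans hζq) n).mp hcon
    exact RO.not_mem_compl h2 (RO.lower h1 hζb)
  have tot : ∀ w2 : Cond, ∃ w3, w3 ≤ w2 ∧ ∃ α, w3 ∈ ht.v n α := by
    intro w2
    have h1 : w2 ∈ ⨆ α, ht.v n α := by
      rw [ht.tot n]; exact RO.mem_top _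
    exact RO.mem_iSup.mp h1 _ le_rfl
  have cof : ∀ (ζ : Kap) (r : Set Om) (hr : r ∈ w1.S), ζ ≠ ξ0 → Coord.row ζ ∉ D →
      w1.v (.row ζ) = some (.nd r) → star w1 D ξ0 r hr ≤ q → ∀ w2, w2 ≤ w1 → ∀ α,
      ∃ w3, w3 ≤ w2 ∧ ∃ m, w3 ∈ EAV G (rowN ζ) (EN G q D ξ0 b) m ∧ w3 ∈ ht.v m α := by
    intro ζ r hr hζ hζD hζv hζq w2 hw2 α
    have h1 : w1 ∈ ⨅ α, ⨆ n, (EAV G (rowN ζ) (EN G q D ξ0 b) n ⊓ ht.v n α) :=
      (hECC w1 ζ r hr hζ hζD hζv hζq).1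
    have h2 := RO.mem_iInf.mp (RO.lower hw2 h1) α
    obtain ⟨w3, hw3, m, hm⟩ := RO.mem_iSup.mp h2 _ le_rfl
    exact ⟨w3, hw3, m, hm.1, hm.2⟩
  rcases hopp with ⟨ho1, ho2⟩ | ⟨ho1, ho2⟩
  · -- `U ∈ b n`, `V ∈ (b n)ᶜ`
    have hUb := hRu.1 ho1
    have hVb := hRv.2 ho2
    have hw1E : w1 ∈ EAV G (rowN ξ) (EN G q D ξ0 b) n := by
      rw [hEK w1 ξ t hst1 hne hnD hv2 (by rw [hse]; exact hUq), hse]
      exact hUb
    obtain ⟨w2, hw2, α, hα⟩ := tot w1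
    obtain ⟨w3, hw3, m, hm1, hm2⟩ := cof ξ' t' hst1' hne' hnD' hv2' (by rw [hse']; exact hVq) w2
      hw2 α
    have hnm : n ≠ m := by
      rintro rfl
      exact key ξ' t' hst1' hne' hnD' hv2' (by rw [hse']; exact hVq) (by rw [hse']; exact hVb)
        w3 (hw3.trans hw2) hm1
    refine ⟨w3, (hw3.trans hw2).trans hw1, mem_iSup_of n (mem_iSup_of m (mem_iSup_of α ?_))⟩
    refine ⟨⟨RO.lower (hw3.trans hw2) hw1E, hm1⟩, ⟨RO.lower hw3 hα, hm2⟩, ?_⟩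
    rw [bo_true hnm]
    exact RO.mem_top _
  · have hUb := hRu.2 ho1
    have hVb := hRv.1 ho2
    have hw1E : w1 ∈ EAV G (rowN ξ') (EN G q D ξ0 b) n := by
      rw [hEK w1 ξ' t' hst1' hne' hnD' hv2' (by rw [hse']; exact hVq), hse']
      exact hVb
    obtain ⟨w2, hw2, α, hα⟩ := tot w1
    obtain ⟨w3, hw3, m, hm1, hm2⟩ := cof ξ t hst1 hne hnD hv2 (by rw [hse]; exact hUq) w2 hw2 α
    have hnm : m ≠ n := by
      rintro rfl
      exact key ξ t hst1 hne hnD hv2 (by rw [hse]; exact hUq) (by rw [hse]; exact hUb)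
        w3 (hw3.trans hw2) hm1
    refine ⟨w3, (hw3.trans hw2).trans hw1, mem_iSup_of m (mem_iSup_of n (mem_iSup_of α ?_))⟩
    refine ⟨⟨hm1, RO.lower (hw3.trans hw2) hw1E⟩, ⟨hm2, RO.lower hw3 hα⟩, ?_⟩
    rw [bo_true hnm]
    exact RO.mem_top _

end Pool.Agent.Helper97.Ku.PkEC
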