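import Pool.Agent.Helper97.Ku.GoalsD

namespace Pool.Agent.Helper97.Ku.PkTD

open Set Pool.Agent.Helper97.Ku

theorem c0_val (G : Grd Om) : (G.c0 : Om).1 = 0 := by
  have h1 : (0 : Ordinal.{0}) < Ordinal.omega 1 := Ordinal.omega_pos 1
  have h2 : G.c0 ≤ (⟨0, h1⟩ : Om) := G.c0_le _
  have h3 : (G.c0 : Om).1 ≤ 0 := h2
  exact le_antisymm h3 (by simp)

theorem c0_lt (G : Grd Om) {γ : Om} (h : γ ≠ G.c0) : G.c0 < γ :=
  lt_of_le_of_ne (G.c0_le γ) (Ne.symm h)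

theorem add_lt (a b : Om) : a.1 + b.1 < Ordinal.omega 1 := by
  have h : Ordinal.IsPrincipal (· + ·) (Cardinal.aleph 1 : Cardinal.{0}).ord :=
    Ordinal.isPrincipal_add_ord (Cardinal.aleph0_le_aleph 1)
  rw [Cardinal.ord_aleph] at h
  exact h a.2 b.2

open Classical in
/-- the levels -/
noncomputable def lam (G : Grd Om) (γ : Om) : Om :=
  if γ = G.c0 then G.c0 else ⟨(G.w0 : Om).1 + γ.1, add_lt _ _⟩

theorem td : G_TD := by
  intro G
  have hemb1 : Nonempty (Om ↪ {q : Om × Om // q = (G.c0, G.c0) ∨ (G.c0 < q.1 ∧ q.2 < G.w0)}) := by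
    classical
    refine ⟨⟨fun γ => ⟨(γ, G.c0), ?_⟩, ?_⟩⟩
    · by_cases h : γ = G.c0
      · left; rw [h]
      · right; exact ⟨c0_lt G h, G.w0_pos⟩
    · intro γ γ' h
      have h1 := congrArg Subtype.val h
      exact (Prod.ext_iff.mp h1).1
  have hemb2 : Nonempty ({q : Om × Om // q = (G.c0, G.c0) ∨ (G.c0 < q.1 ∧ q.2 < G.w0)} ↪ Om) :=
    ⟨⟨fun q => G.pi q.1, fun q q' h => Subtype.ext (G.pi.injective h)⟩⟩
  obtain ⟨e1⟩ := hemb1
  obtain ⟨e2⟩ := hemb2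
  obtain ⟨e⟩ := Function.Embedding.antisymm e1 e2
  refine ⟨⟨lam G, ?_, ?_, ?_, fun i => (e i).1, ?_, ?_⟩⟩
  · intro γ γ' h
    have h' : γ.1 < γ'.1 := h
    have hne : γ' ≠ G.c0 := fun h1 => absurd (G.c0_le γ) (not_le.mpr (h1 ▸ h))
    show lam G γ < lam G γ'
    unfold lam
    rw [if_neg hne]
    by_cases hg : γ = G.c0
    · rw [if_pos hg]
      show (G.c0 : Om).1 < (G.w0 : Om).1 + γ'.1
      rw [c0_val G]
      have h2 : (G.c0 : Om).1 < (G.w0 : Om).1 := G.w0_pos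
      rw [c0_val G] at h2
      exact lt_of_lt_of_le h2 (le_add_right le_rfl)
    · rw [if_neg hg]
      show (G.w0 : Om).1 + γ.1 < (G.w0 : Om).1 + γ'.1
      exact (add_lt_add_iff_left _).mpr h'
  · unfold lam; rw [if_pos rfl]
  · intro γ hγ
    unfold lam
    rw [if_neg (ne_of_gt hγ)]
    show (G.w0 : Om).1 ≤ (G.w0 : Om).1 + γ.1
    exact le_add_right le_rfl
  · intro i j h
    exact e.injective (Subtype.ext h)
  · intro q
    constructor
    · rintro ⟨i, rfl⟩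
      exact (e i).2
    · intro h
      exact ⟨e.symm ⟨q, h⟩, by simp⟩

end Pool.Agent.Helper97.Ku.PkTD
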